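import Pool.Agent.Helper14.LE.St

/-!
Project LE (MP_58b586_gt), module NRL: linear normal form of an isotropic subspace.
-/

set_option autoImplicit false

namespace Pool.Agent.Helper7.LE

open Pool.Agent.Helper14.LK Pool.Agent.Helper14.LE
open scoped ContDiff Topology
open MeasureTheory Set Filter

/-- a unit vector whose orthogonal complement is contained in the second projection of `V` -/
private theorem exists_unit {k : ℕ} (V : Submodule ℝ (WW (k + 1)))
    (hk : k ≤ Module.finrank ℝ V) (hV : ∀ u : EE (k + 1), ((u, 0) : WW (k + 1)) ∈ V → u = 0) :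
    ∃ ν : EE (k + 1), ‖ν‖ = 1 ∧ ∀ y : EE (k + 1), inner ℝ ν y = 0 → ∃ x, ((x, y) : WW (k + 1)) ∈ V := by
  set g : V →ₗ[ℝ] EE (k + 1) := (LinearMap.snd ℝ (EE (k + 1)) (EE (k + 1))).domRestrict V with hg
  have hinj : Function.Injective g := by
    rw [← LinearMap.ker_eq_bot, LinearMap.ker_eq_bot']
    rintro ⟨⟨a, b⟩, hm⟩ h
    have hb : b = 0 := h
    subst hb
    have ha := hV a hm
    subst ha
    rfl
  set Y := LinearMap.range g with hY
  have h1 : Module.finrank ℝ Y = Module.finrank ℝ V := LinearMap.finrank_range_of_inj hinj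
  have h2 := Y.finrank_add_finrank_orthogonal
  have h3 : Module.finrank ℝ (EE (k + 1)) = k + 1 := by simp
  have h4 : Module.finrank ℝ Yᗮ ≤ 1 := by omega
  obtain ⟨v, hv⟩ := finrank_le_one_iff.1 h4
  have key : ∀ ν : EE (k + 1), (∃ r : ℝ, (v : EE (k + 1)) = r • ν) →
      ∀ y : EE (k + 1), inner ℝ ν y = 0 → ∃ x, ((x, y) : WW (k + 1)) ∈ V := by
    rintro ν ⟨r, hr⟩ y hy
    have hmem : y ∈ Yᗮᗮ := by
      rw [Submodule.mem_orthogonal]
      intro w hw
      obtain ⟨c, hc⟩ := hv ⟨w, hw⟩
      have hc' : w = c • (v : EE (k + 1)) := by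
        have := congrArg Subtype.val hc
        exact this.symm
      rw [hc', hr, smul_smul, real_inner_smul_left, hy, mul_zero]
    rw [Submodule.orthogonal_orthogonal] at hmem
    obtain ⟨⟨⟨a, b⟩, hm⟩, hb⟩ := hmem
    have hb' : b = y := hb
    subst hb'
    exact ⟨a, hm⟩
  by_cases hv0 : (v : EE (k + 1)) = 0
  · refine ⟨mk (0, 1), ?_, key _ ⟨0, by rw [hv0, zero_smul]⟩⟩
    have h5 := norm_sq_eq (mk ((0 : EE k), (1 : ℝ)))
    rw [hd_mk, lt_mk] at h5
    simp only [norm_zero] at h5
    have h6 : ‖mk ((0 : EE k), (1 : ℝ))‖ ^ 2 = 1 := by rw [h5]; norm_num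
    nlinarith [norm_nonneg (mk ((0 : EE k), (1 : ℝ)))]
  · refine ⟨‖(v : EE (k + 1))‖⁻¹ • (v : EE (k + 1)), norm_smul_inv_norm hv0, key _
      ⟨‖(v : EE (k + 1))‖, ?_⟩⟩
    rw [smul_smul, mul_inv_cancel₀ (norm_ne_zero_iff.2 hv0), one_smul]

/-- the shear `(x, y) ↦ (U (x - A y), U y)` -/
private noncomputable def shear {k : ℕ} (A : EE (k + 1) →ₗ[ℝ] EE (k + 1))
    (U : EE (k + 1) ≃ₗᵢ[ℝ] EE (k + 1)) : WW (k + 1) ≃L[ℝ] WW (k + 1) :=
  LinearEquiv.toContinuousLinearEquiv
    { toFun := fun w => (U (w.1 - A w.2), U w.2)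
      map_add' := fun a b => by
        ext1 <;> simp only [Prod.fst_add, Prod.snd_add, map_add, map_sub] <;> abel
      map_smul' := fun r a => by
        ext1 <;> simp only [Prod.smul_fst, Prod.smul_snd, map_smul, map_sub, RingHom.id_apply,
          smul_sub]
      invFun := fun w => (U.symm w.1 + A (U.symm w.2), U.symm w.2)
      left_inv := fun a => by
        simp
      right_inv := fun a => by
        simp }

private theorem shear_apply {k : ℕ} (A : EE (k + 1) →ₗ[ℝ] EE (k + 1))
    (U : EE (k + 1) ≃ₗᵢ[ℝ] EE (k + 1)) (w : WW (k + 1)) :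
    shear A U w = (U (w.1 - A w.2), U w.2) := rfl

theorem hNRL : StNRL := by
  intro k V hiso hk hV
  obtain ⟨ν, hν, hνV⟩ := exists_unit V hk hV
  -- the map `f`
  have hex : ∀ z : EE (k + 1), ∃ x, ((x, z - inner ℝ ν z • ν) : WW (k + 1)) ∈ V := by
    intro z
    apply hνV
    rw [inner_sub_right, real_inner_smul_right, real_inner_self_eq_norm_sq, hν]
    ring
  choose f hf using hex
  have huniq : ∀ x x' y, ((x, y) : WW (k + 1)) ∈ V → ((x', y) : WW (k + 1)) ∈ V → x = x' := by
    intro x x' y h1 h2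
    have h3 := V.sub_mem h1 h2
    have h4 : ((x - x', 0) : WW (k + 1)) ∈ V := by
      have : ((x, y) : WW (k + 1)) - (x', y) = (x - x', 0) := by
        ext1 <;> simp
      rwa [this] at h3
    exact sub_eq_zero.1 (hV _ h4)
  let F : EE (k + 1) →ₗ[ℝ] EE (k + 1) :=
    { toFun := f
      map_add' := fun a b => by
        refine huniq _ _ _ (hf (a + b)) ?_
        have h := V.add_mem (hf a) (hf b)
        convert h using 1
        ext1
        · rfl
        · simp only [inner_add_right, add_smul, Prod.snd_add]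
          abel
      map_smul' := fun r a => by
        refine huniq _ _ _ (hf (r • a)) ?_
        have h := V.smul_mem r (hf a)
        convert h using 1
        ext1
        · rfl
        · simp only [real_inner_smul_right, Prod.smul_snd, smul_sub, mul_smul] }
  have hF : ∀ z, F z = f z := fun z => rfl
  let A : EE (k + 1) →ₗ[ℝ] EE (k + 1) :=
    F + ((innerSL ℝ ν : EE (k + 1) →L[ℝ] ℝ) : EE (k + 1) →ₗ[ℝ] ℝ).smulRight (F.adjoint ν)
  have hA : ∀ z, A z = F z + inner ℝ ν z • F.adjoint ν := fun z => rfl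
  have hsym : ∀ a b, inner ℝ (A a) b = inner ℝ a (A b) := by
    intro a b
    have h1 := hiso _ (hf a) _ (hf b)
    simp only [om] at h1
    rw [inner_sub_right, inner_sub_left, real_inner_smul_left, real_inner_smul_right] at h1
    rw [hA, hA, inner_add_left, inner_add_right, real_inner_smul_left, real_inner_smul_right,
      LinearMap.adjoint_inner_left, LinearMap.adjoint_inner_right, hF, hF]
    have e1 : inner ℝ (f a) ν = inner ℝ ν (f a) := real_inner_comm _ _
    have e2 : inner ℝ a ν = inner ℝ ν a := real_inner_comm _ _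
    linarith
  set e : EE (k + 1) := mk ((0 : EE k), (1 : ℝ)) with he
  have hne : ‖e‖ = 1 := by
    have h5 := norm_sq_eq e
    rw [he, hd_mk, lt_mk, ← he] at h5
    simp only [norm_zero] at h5
    have h6 : ‖e‖ ^ 2 = 1 := by rw [h5]; norm_num
    nlinarith [norm_nonneg e]
  let U : EE (k + 1) ≃ₗᵢ[ℝ] EE (k + 1) := Submodule.reflection (ℝ ∙ (ν - e))ᗮ
  have hU : U ν = e := Submodule.reflection_sub (by rw [hν, hne])
  refine ⟨shear A U, U, ?_, ?_, ?_⟩
  · intro a b
    rw [shear_apply, shear_apply]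
    simp only [om]
    rw [U.inner_map_map, U.inner_map_map, inner_sub_left, inner_sub_right, hsym]
    ring
  · intro x
    rw [shear_apply]
    simp
  · intro w h1 h2
    rw [shear_apply] at h1 h2
    rw [cc_apply] at h1
    have h3 : lt (U (w.1 - A w.2)) = 0 := by
      have := congrArg Complex.re h2
      rw [zz_re] at this
      simpa using this
    have h4 : lt (U w.2) = 0 := by
      have := congrArg Complex.im h2
      rw [zz_im] at this
      simpa using this
    have h5 : U (w.1 - A w.2) = 0 := by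
      apply ext_hd_lt
      · rw [map_zero]; exact h1
      · rw [map_zero]; exact h3
    have h6 : w.1 = A w.2 := by
      have : w.1 - A w.2 = 0 := by
        apply U.injective
        rw [h5, map_zero]
      exact sub_eq_zero.1 this
    have h7 : inner ℝ ν w.2 = 0 := by
      rw [← U.inner_map_map, hU, inner_eq, he, hd_mk, lt_mk, h4]
      simp only [inner_zero_left, mul_zero, add_zero]
    have h8 : A w.2 = f w.2 := by
      rw [hA, h7, zero_smul, add_zero, hF]
    have h9 := hf w.2
    rw [h7, zero_smul, sub_zero, ← h8, ← h6] at h9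
    exact h9

end Pool.Agent.Helper7.LE
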